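import Pool.Agent.KS6_77.Gulko.Main

set_option autoImplicit false

namespace Pool.Agent.Results.MP_4f6a4e_gt.CorsonReflection

open Set Topology TopologicalSpace Cardinal

/-- a set `V` of real functions, with the pointwise topology, is a Lindelöf `Σ`-space: it is a
continuous image of a closed subspace `F` of `K × M`, `K` a Tychonoff cube, `M ⊆ [0,1]^ω` -/
def LSigma {Y : Type} (V : Set (Y → ℝ)) : Prop :=
  ∃ (ι : Type) (F : Set ((ι → unitInterval) × (ℕ → unitInterval)))
    (g : (ι → unitInterval) × (ℕ → unitInterval) → Y → ℝ),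
    F = closure F ∩ (Set.univ ×ˢ (Prod.snd '' F)) ∧ ContinuousOn g F ∧ g '' F = V

/-- `C_p(Z)` as a set of functions -/
def Cp (Z : Type) [TopologicalSpace Z] : Set (Z → ℝ) := {f | Continuous f}

/-- (for compact `Z`) `Z` is Gul'ko compact: `C_p(Z)` is a Lindelöf `Σ`-space -/
def Gulko (Z : Type) [TopologicalSpace Z] : Prop := LSigma (Cp Z)

/-- **A Corson compact space `X` that is not Gul'ko compact, although all closures of sets of at
most `𝔠` points are Gul'ko compact, all continuous images of weight at most `𝔠` are Gul'ko compact,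
and all closures in `C_p(X)` of sets of at most `𝔠` functions are Lindelöf `Σ`.** -/
theorem result :
    ∃ (X : Type) (_ : TopologicalSpace X), CompactSpace X ∧ T2Space X ∧
      TotallyDisconnectedSpace X ∧
      (∃ (Γ : Type) (e : X → (Γ → ℝ)), IsEmbedding e ∧ ∀ x, {i | e x i ≠ 0}.Countable) ∧
      ¬ Gulko X ∧
      (∀ A : Set X, #A ≤ continuum → Gulko (closure A)) ∧
      (∀ (Y : Type) [TopologicalSpace Y] [CompactSpace Y] [T2Space Y] (B : Set (Set Y)),
        IsTopologicalBasis B → #B ≤ continuum →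
        ∀ f : X → Y, Continuous f → Function.Surjective f → Gulko Y) ∧
      (∀ A : Set (X → ℝ), A ⊆ Cp X → #A ≤ continuum → LSigma (closure A ∩ Cp X)) := by
  refine ⟨Pool.Agent.H.MP_32433e.X, inferInstance, inferInstance, inferInstance, inferInstance,
    ⟨_, Pool.Agent.KS6_77.Gulko.corson⟩, fun h => Pool.Agent.H.MP_32433e.ngu
      (Pool.Agent.H.MP_32433e.km.1 h), fun A hA => Pool.Agent.H.MP_32433e.km.2
      (Pool.Agent.H.MP_32433e.one A hA), fun Y _ _ _ B hB hc f hf hs =>
      Pool.Agent.H.MP_32433e.km.2 (Pool.Agent.KS6_77.Gulko.image B hB hc f hf hs),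
    fun A hA hc => Pool.Agent.H.MP_32433e.km.2 (Pool.Agent.H.MP_32433e.two A hA hc)⟩

end Pool.Agent.Results.MP_4f6a4e_gt.CorsonReflection
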